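/-
Many clean embeddings of the tree (S_CNT of the project BC).
-/
import Pool.Agent.W715.BC.Defs

set_option autoImplicit false

namespace Pool.Agent.W704.BC

open Pool.Agent.W715.BC

/-- number of elements with a property -/
noncomputable def cnt {α : Type} [Fintype α] (p : α → Prop) : ℕ :=
  by
    classical
    exact (Finset.univ.filter p).card

theorem card_eq_cnt {α : Type} [Fintype α] (p : α → Prop) [DecidablePred p] :
    (Finset.univ.filter p).card = cnt p := by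
  unfold cnt
  congr

theorem cnt_inj_le {α β : Type} [Fintype α] [Fintype β] (p : α → Prop) (q : β → Prop) (φ : α → β)
    (h1 : ∀ a, p a → q (φ a)) (h2 : ∀ a b, p a → p b → φ a = φ b → a = b) : cnt p ≤ cnt q := by
  classical
  rw [← card_eq_cnt, ← card_eq_cnt]
  refine Finset.card_le_card_of_injOn φ ?_ ?_
  · intro a ha
    simp only [Finset.coe_filter, Finset.mem_univ, true_and, Set.mem_ofPred_eq] at ha ⊢
    exact h1 a ha
  · intro a ha b hb hab
    simp only [Finset.coe_filter, Finset.mem_univ, true_and, Set.mem_ofPred_eq] at ha hb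
    exact h2 a b ha hb hab

theorem cnt_mono {α : Type} [Fintype α] (p q : α → Prop) (h : ∀ a, p a → q a) : cnt p ≤ cnt q :=
  cnt_inj_le p q id h (fun _ _ _ _ h => h)

theorem cnt_or {α : Type} [Fintype α] (p q : α → Prop) :
    cnt (fun a => p a ∨ q a) ≤ cnt p + cnt q := by
  classical
  rw [← card_eq_cnt, ← card_eq_cnt, ← card_eq_cnt, Finset.filter_or]
  exact Finset.card_union_le _ _

theorem cnt_exists {α ι : Type} [Fintype α] [Fintype ι] (p : ι → α → Prop) :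
    cnt (fun a => ∃ i, p i a) ≤ ∑ i, cnt (p i) := by
  classical
  have h : (Finset.univ.filter (fun a => ∃ i, p i a)) ⊆
      Finset.univ.biUnion (fun i => Finset.univ.filter (p i)) := by
    intro a ha
    simp only [Finset.mem_filter, Finset.mem_univ, true_and, Finset.mem_biUnion] at ha ⊢
    exact ha
  rw [← card_eq_cnt]
  refine le_trans (Finset.card_le_card h) (le_trans Finset.card_biUnion_le ?_)
  refine Finset.sum_le_sum fun i _ => ?_
  rw [card_eq_cnt]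

theorem cnt_exists_le {α ι : Type} [Fintype α] [Fintype ι] (p : ι → α → Prop) (M : ℕ)
    (h : ∀ i, cnt (p i) ≤ M) : cnt (fun a => ∃ i, p i a) ≤ Fintype.card ι * M := by
  refine le_trans (cnt_exists p) ?_
  refine le_trans (Finset.sum_le_sum fun i _ => h i) ?_
  simp

theorem cnt_prod {α β : Type} [Fintype α] [Fintype β] (p : α → Prop) (q : α → β → Prop) :
    cnt (fun z : α × β => p z.1 ∧ q z.1 z.2) =
      by classical exact ∑ a ∈ Finset.univ.filter p, cnt (q a) := by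
  classical
  rw [← card_eq_cnt, Finset.card_filter, Fintype.sum_prod_type, Finset.sum_filter]
  refine Finset.sum_congr rfl fun a _ => ?_
  by_cases hp : p a
  · rw [if_pos hp, ← card_eq_cnt, Finset.card_filter]
    refine Finset.sum_congr rfl fun b _ => ?_
    simp [hp]
  · rw [if_neg hp]
    simp [hp]

theorem cnt_prod_le {α β : Type} [Fintype α] [Fintype β] (p : α → Prop) (q : α → β → Prop)
    (M₁ M₂ : ℕ) (h1 : cnt p ≤ M₁) (h2 : ∀ a, p a → cnt (q a) ≤ M₂) :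
    cnt (fun z : α × β => p z.1 ∧ q z.1 z.2) ≤ M₁ * M₂ := by
  classical
  rw [cnt_prod]
  refine le_trans (Finset.sum_le_sum (g := fun _ => M₂) fun a ha => h2 a ?_) ?_
  · simpa using ha
  · rw [Finset.sum_const, smul_eq_mul, card_eq_cnt]
    exact Nat.mul_le_mul_right _ h1

theorem cnt_prod_ge {α β : Type} [Fintype α] [Fintype β] (p : α → Prop) (q : α → β → Prop)
    (M₁ M₂ : ℕ) (h1 : M₁ ≤ cnt p) (h2 : ∀ a, p a → M₂ ≤ cnt (q a)) :
    M₁ * M₂ ≤ cnt (fun z : α × β => p z.1 ∧ q z.1 z.2) := by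
  classical
  rw [cnt_prod]
  refine le_trans ?_ (Finset.sum_le_sum (f := fun _ => M₂) fun a ha => h2 a ?_)
  · rw [Finset.sum_const, smul_eq_mul, card_eq_cnt]
    exact Nat.mul_le_mul_right _ h1
  · simpa using ha

theorem cnt_pi {I γ : Type} [Fintype I] [DecidableEq I] [Fintype γ] (p : I → γ → Prop) :
    cnt (fun f : I → γ => ∀ i, p i (f i)) = ∏ i, cnt (p i) := by
  classical
  rw [← card_eq_cnt]
  have h : (Finset.univ.filter (fun f : I → γ => ∀ i, p i (f i))) =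
      Fintype.piFinset (fun i => Finset.univ.filter (p i)) := by
    ext f
    simp
  rw [h, Fintype.card_piFinset]
  refine Finset.prod_congr rfl fun i _ => card_eq_cnt _

theorem cnt_pi_le {I γ : Type} [Fintype I] [DecidableEq I] [Fintype γ] (p : I → γ → Prop) (M : ℕ)
    (h : ∀ i, cnt (p i) ≤ M) : cnt (fun f : I → γ => ∀ i, p i (f i)) ≤ M ^ Fintype.card I := by
  rw [cnt_pi]
  refine le_trans (Finset.prod_le_prod' fun i _ => h i) ?_
  simp

theorem cnt_pi_ge {I γ : Type} [Fintype I] [DecidableEq I] [Fintype γ] (p : I → γ → Prop) (M : ℕ)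
    (h : ∀ i, M ≤ cnt (p i)) : M ^ Fintype.card I ≤ cnt (fun f : I → γ => ∀ i, p i (f i)) := by
  rw [cnt_pi]
  refine le_trans ?_ (Finset.prod_le_prod' fun i _ => h i)
  simp

/-- one coordinate is determined by the others -/
theorem cnt_coinc {I γ : Type} [Fintype I] [DecidableEq I] [Fintype γ] (p : I → γ → Prop) (M : ℕ)
    (h : ∀ i, cnt (p i) ≤ M) (Q : (I → γ) → Prop) (i : I)
    (hQ : ∀ f g : I → γ, Q f → Q g → (∀ k, k ≠ i → f k = g k) → f = g) :
    cnt (fun f : I → γ => (∀ i, p i (f i)) ∧ Q f) ≤ M ^ (Fintype.card I - 1) := by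
  have h1 := cnt_pi_le (I := {k : I // k ≠ i}) (fun k => p k.1) M (fun k => h k.1)
  have h2 : Fintype.card {k : I // k ≠ i} = Fintype.card I - 1 := by
    rw [Fintype.card_subtype_compl]
    simp
  rw [h2] at h1
  refine le_trans (cnt_inj_le _ _ (fun f k => f k.1) ?_ ?_) h1
  · intro f hf k
    exact hf.1 k.1
  · intro f g hf hg hfg
    refine hQ f g hf.2 hg.2 fun k hk => ?_
    exact congrFun hfg ⟨k, hk⟩

section
variable {A B : Type} [Fintype A] [Fintype B] {r : A → B → Prop} {D K : ℕ} (hr : Reg r D K)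
include hr

theorem c1_le (a : A) : cnt (fun b : B => r a b) ≤ K * D := by
  have := hr.ua a
  unfold deg1 at this
  rwa [card_eq_cnt] at this

theorem c1_ge (a : A) : D ≤ cnt (fun b : B => r a b) := by
  have := hr.la a
  unfold deg1 at this
  rwa [card_eq_cnt] at this

theorem c2_le (b : B) : cnt (fun a : A => r a b) ≤ K * D := by
  have := hr.ub b
  unfold deg2 at this
  rwa [card_eq_cnt] at this

theorem c2_ge (b : B) : D ≤ cnt (fun a : A => r a b) := by
  have := hr.lb b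
  unfold deg2 at this
  rwa [card_eq_cnt] at this

/-- tuples in a neighbourhood -/
theorem x_le (m : ℕ) (c : A) : cnt (fun x : Fin m → B => ∀ i, r c (x i)) ≤ (K * D) ^ m := by
  have := cnt_pi_le (I := Fin m) (fun _ => fun b : B => r c b) (K * D) (fun _ => c1_le hr c)
  simpa using this

theorem x_ge (m : ℕ) (c : A) : D ^ m ≤ cnt (fun x : Fin m → B => ∀ i, r c (x i)) := by
  have := cnt_pi_ge (I := Fin m) (fun _ => fun b : B => r c b) D (fun _ => c1_ge hr c)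
  simpa using this

theorem y_le (m : ℕ) (b : B) : cnt (fun y : Fin m → A => ∀ i, r (y i) b) ≤ (K * D) ^ m := by
  have := cnt_pi_le (I := Fin m) (fun _ => fun a : A => r a b) (K * D) (fun _ => c2_le hr b)
  simpa using this

theorem y_ge (m : ℕ) (b : B) : D ^ m ≤ cnt (fun y : Fin m → A => ∀ i, r (y i) b) := by
  have := cnt_pi_ge (I := Fin m) (fun _ => fun a : A => r a b) D (fun _ => c2_ge hr b)
  simpa using this

theorem P_le {I : Type} [Fintype I] [DecidableEq I] (q : ℕ) (x : I → B) :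
    cnt (fun P : I → Fin q → A => ∀ i a, r (P i a) (x i)) ≤ (K * D) ^ (q * Fintype.card I) := by
  have := cnt_pi_le (I := I) (fun i => fun y : Fin q → A => ∀ a, r (y a) (x i)) ((K * D) ^ q)
    (fun i => y_le hr q (x i))
  rwa [← pow_mul] at this

theorem P_ge {I : Type} [Fintype I] [DecidableEq I] (q : ℕ) (x : I → B) :
    D ^ (q * Fintype.card I) ≤ cnt (fun P : I → Fin q → A => ∀ i a, r (P i a) (x i)) := by
  have := cnt_pi_ge (I := I) (fun i => fun y : Fin q → A => ∀ a, r (y a) (x i)) (D ^ q)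
    (fun i => y_ge hr q (x i))
  rwa [← pow_mul] at this

/-- double counting of the edges -/
theorem card_B_le (hD : 0 < D) : Fintype.card B ≤ K * Fintype.card A := by
  classical
  have h1 : ∑ a : A, cnt (fun b : B => r a b) = ∑ b : B, cnt (fun a : A => r a b) := by
    simp_rw [← card_eq_cnt, Finset.card_filter]
    rw [Finset.sum_comm]
  have h2 : ∑ a : A, cnt (fun b : B => r a b) ≤ Fintype.card A * (K * D) := by
    refine le_trans (Finset.sum_le_sum fun a _ => c1_le hr a) ?_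
    simp
  have h3 : Fintype.card B * D ≤ ∑ b : B, cnt (fun a : A => r a b) := by
    refine le_trans ?_ (Finset.sum_le_sum fun b _ => c2_ge hr b)
    simp
  have h4 : Fintype.card B * D ≤ (K * Fintype.card A) * D := by
    calc Fintype.card B * D ≤ Fintype.card A * (K * D) := by rw [← h1] at h3; exact le_trans h3 h2
      _ = _ := by ring
  exact Nat.le_of_mul_le_mul_right h4 hD

end

/-- all homomorphisms -/
def Hom {A B : Type} (r : A → B → Prop) {s q s' : ℕ}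
    (z : A × (Fin s → B) × (Fin s' → B) × (Fin s → Fin q → A)) : Prop :=
  (∀ i, r z.1 (z.2.1 i)) ∧ (∀ l, r z.1 (z.2.2.1 l)) ∧ ∀ i a, r (z.2.2.2 i a) (z.2.1 i)

section
variable {A B : Type} [Fintype A] [Fintype B] {r : A → B → Prop} {D K : ℕ} (hr : Reg r D K)
include hr

theorem Hom_ge (s q s' : ℕ) : Fintype.card A * (D ^ s * (D ^ s' * D ^ (q * s))) ≤
    cnt (fun z : A × (Fin s → B) × (Fin s' → B) × (Fin s → Fin q → A) => Hom r z) := by
  classical
  have h := cnt_prod_ge (α := A) (β := (Fin s → B) × (Fin s' → B) × (Fin s → Fin q → A))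
    (fun _ => True)
    (fun c y => (∀ i, r c (y.1 i)) ∧ ((∀ l, r c (y.2.1 l)) ∧ ∀ i a, r (y.2.2 i a) (y.1 i)))
    (Fintype.card A) (D ^ s * (D ^ s' * D ^ (q * s))) ?_ ?_
  · refine le_trans h (cnt_mono _ _ fun z hz => hz.2)
  · rw [← card_eq_cnt]; simp
  · intro c _
    refine cnt_prod_ge (fun x : Fin s → B => ∀ i, r c (x i))
      (fun x (y : (Fin s' → B) × (Fin s → Fin q → A)) =>
        (∀ l, r c (y.1 l)) ∧ ∀ i a, r (y.2 i a) (x i)) _ _ (x_ge hr s c) ?_
    intro x _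
    refine cnt_prod_ge (fun w : Fin s' → B => ∀ l, r c (w l))
      (fun _ (P : Fin s → Fin q → A) => ∀ i a, r (P i a) (x i)) _ _ (x_ge hr s' c) ?_
    intro w _
    have := P_ge hr q x
    simpa using this

omit hr in
/-- upper bound with an additional property in every layer -/
theorem layers_le {A' : Type} [Fintype A'] (s q s' : ℕ) (M₀ M₁ M₂ M₃ : ℕ)
    (p₀ : A' → Prop) (c : A' → A) (p₁ : A' → (Fin s → B) → Prop)
    (p₂ : A' → (Fin s → B) → (Fin s' → B) → Prop)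
    (p₃ : A' → (Fin s → B) → (Fin s → Fin q → A) → Prop)
    (h₀ : cnt p₀ ≤ M₀)
    (h₁ : ∀ a, p₀ a → cnt (fun x : Fin s → B => (∀ i, r (c a) (x i)) ∧ p₁ a x) ≤ M₁)
    (h₂ : ∀ a x, p₀ a → (∀ i, r (c a) (x i)) → p₁ a x →
      cnt (fun w : Fin s' → B => (∀ i, r (c a) (w i)) ∧ p₂ a x w) ≤ M₂)
    (h₃ : ∀ a x, p₀ a → (∀ i, r (c a) (x i)) → p₁ a x →
      cnt (fun P : Fin s → Fin q → A => (∀ i j, r (P i j) (x i)) ∧ p₃ a x P) ≤ M₃) :
    cnt (fun z : A' × (Fin s → B) × (Fin s' → B) × (Fin s → Fin q → A) =>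
      p₀ z.1 ∧ (((∀ i, r (c z.1) (z.2.1 i)) ∧ p₁ z.1 z.2.1) ∧
        (((∀ i, r (c z.1) (z.2.2.1 i)) ∧ p₂ z.1 z.2.1 z.2.2.1) ∧
          ((∀ i j, r (z.2.2.2 i j) (z.2.1 i)) ∧ p₃ z.1 z.2.1 z.2.2.2)))) ≤
      M₀ * (M₁ * (M₂ * M₃)) := by
  refine cnt_prod_le p₀ (fun a (y : (Fin s → B) × (Fin s' → B) × (Fin s → Fin q → A)) =>
        ((∀ i, r (c a) (y.1 i)) ∧ p₁ a y.1) ∧
        (((∀ i, r (c a) (y.2.1 i)) ∧ p₂ a y.1 y.2.1) ∧
          ((∀ i j, r (y.2.2 i j) (y.1 i)) ∧ p₃ a y.1 y.2.2))) _ _ h₀ ?_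
  intro a ha
  refine cnt_prod_le (fun x : Fin s → B => (∀ i, r (c a) (x i)) ∧ p₁ a x)
    (fun x (y : (Fin s' → B) × (Fin s → Fin q → A)) =>
      ((∀ i, r (c a) (y.1 i)) ∧ p₂ a x y.1) ∧
          ((∀ i j, r (y.2 i j) (x i)) ∧ p₃ a x y.2)) _ _ (h₁ a ha) ?_
  intro x hx
  refine cnt_prod_le (fun w : Fin s' → B => (∀ i, r (c a) (w i)) ∧ p₂ a x w)
    (fun _ P => (∀ i j, r (P i j) (x i)) ∧ p₃ a x P) _ _ (h₂ a x ha hx.1 hx.2) ?_
  intro w _
  exact h₃ a x ha hx.1 hx.2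

theorem x_le' (m : ℕ) (c : A) (p : (Fin m → B) → Prop) :
    cnt (fun x : Fin m → B => (∀ i, r c (x i)) ∧ p x) ≤ (K * D) ^ m :=
  le_trans (cnt_mono _ _ fun _ h => h.1) (x_le hr m c)

theorem P_le' {s : ℕ} (q : ℕ) (x : Fin s → B) (p : (Fin s → Fin q → A) → Prop) :
    cnt (fun P : Fin s → Fin q → A => (∀ i a, r (P i a) (x i)) ∧ p P) ≤ (K * D) ^ (q * s) := by
  have := P_le hr q x
  rw [Fintype.card_fin] at this
  exact le_trans (cnt_mono _ _ fun _ h => h.1) this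

theorem x_coinc (m : ℕ) (c : A) (i : Fin m) (Q : (Fin m → B) → Prop)
    (hQ : ∀ f g : Fin m → B, Q f → Q g → (∀ k, k ≠ i → f k = g k) → f = g) :
    cnt (fun x : Fin m → B => (∀ i, r c (x i)) ∧ Q x) ≤ (K * D) ^ (m - 1) := by
  have := cnt_coinc (I := Fin m) (fun _ => fun b : B => r c b) (K * D) (fun _ => c1_le hr c) Q i hQ
  simpa using this

theorem P_coinc {s q : ℕ} (x : Fin s → B) (k : Fin s × Fin q)
    (Q : (Fin s → Fin q → A) → Prop)
    (hQ : ∀ f g : Fin s → Fin q → A, Q f → Q g →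
      (∀ l : Fin s × Fin q, l ≠ k → f l.1 l.2 = g l.1 l.2) → f = g) :
    cnt (fun P : Fin s → Fin q → A => (∀ i a, r (P i a) (x i)) ∧ Q P) ≤ (K * D) ^ (q * s - 1) := by
  have h := cnt_coinc (I := Fin s × Fin q) (fun p => fun a : A => r a (x p.1)) (K * D)
    (fun p => c2_le hr (x p.1)) (fun f => Q (fun i a => f (i, a))) k ?_
  · refine le_trans (cnt_inj_le _ _ (fun P p => P p.1 p.2) ?_ ?_) (le_trans h (le_of_eq ?_))
    · intro P hP
      exact ⟨fun p => hP.1 p.1 p.2, hP.2⟩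
    · intro P P' _ _ hPP
      funext i a
      exact congrFun hPP (i, a)
    · simp [mul_comm]
  · intro f g hf hg hfg
    have := hQ _ _ hf hg (fun l hl => hfg l hl)
    funext p
    exact congrFun (congrFun this p.1) p.2

theorem bad1 (s q s' : ℕ) (i j : Fin s) (hij : i ≠ j) :
    cnt (fun z : A × (Fin s → B) × (Fin s' → B) × (Fin s → Fin q → A) =>
      Hom r z ∧ z.2.1 i = z.2.1 j) ≤
      Fintype.card A * ((K * D) ^ (s - 1) * ((K * D) ^ s' * (K * D) ^ (q * s))) := by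
  classical
  refine le_trans (cnt_mono _ _ ?_) (layers_le (r := r) s q s' _ _ _ _ (fun _ : A => True) id
    (fun _ x => x i = x j) (fun _ _ _ => True) (fun _ _ _ => True) ?_ ?_ ?_ ?_)
  · rintro z ⟨⟨h1, h2, h3⟩, h4⟩
    exact ⟨trivial, ⟨h1, h4⟩, ⟨h2, trivial⟩, h3, trivial⟩
  · rw [← card_eq_cnt]; simp
  · intro a _
    refine x_coinc hr s a i _ ?_
    intro f g hf hg hfg
    funext k
    by_cases hk : k = i
    · rw [hk, hf, hg]; exact hfg j (Ne.symm hij)
    · exact hfg k hk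
  · intro a x _ _ _
    exact x_le' hr s' a _
  · intro a x _ _ _
    exact P_le' hr q x _

theorem bad2 (s q s' : ℕ) (i j : Fin s') (hij : i ≠ j) :
    cnt (fun z : A × (Fin s → B) × (Fin s' → B) × (Fin s → Fin q → A) =>
      Hom r z ∧ z.2.2.1 i = z.2.2.1 j) ≤
      Fintype.card A * ((K * D) ^ s * ((K * D) ^ (s' - 1) * (K * D) ^ (q * s))) := by
  classical
  refine le_trans (cnt_mono _ _ ?_) (layers_le (r := r) s q s' _ _ _ _ (fun _ : A => True) id
    (fun _ _ => True) (fun _ _ w => w i = w j) (fun _ _ _ => True) ?_ ?_ ?_ ?_)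
  · rintro z ⟨⟨h1, h2, h3⟩, h4⟩
    exact ⟨trivial, ⟨h1, trivial⟩, ⟨h2, h4⟩, h3, trivial⟩
  · rw [← card_eq_cnt]; simp
  · intro a _
    exact x_le' hr s a _
  · intro a x _ _ _
    refine x_coinc hr s' a i _ ?_
    intro f g hf hg hfg
    funext k
    by_cases hk : k = i
    · rw [hk, hf, hg]; exact hfg j (Ne.symm hij)
    · exact hfg k hk
  · intro a x _ _ _
    exact P_le' hr q x _

theorem bad3 (s q s' : ℕ) (i : Fin s) (l : Fin s') :
    cnt (fun z : A × (Fin s → B) × (Fin s' → B) × (Fin s → Fin q → A) =>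
      Hom r z ∧ z.2.1 i = z.2.2.1 l) ≤
      Fintype.card A * ((K * D) ^ s * ((K * D) ^ (s' - 1) * (K * D) ^ (q * s))) := by
  classical
  refine le_trans (cnt_mono _ _ ?_) (layers_le (r := r) s q s' _ _ _ _ (fun _ : A => True) id
    (fun _ _ => True) (fun _ x w => x i = w l) (fun _ _ _ => True) ?_ ?_ ?_ ?_)
  · rintro z ⟨⟨h1, h2, h3⟩, h4⟩
    exact ⟨trivial, ⟨h1, trivial⟩, ⟨h2, h4⟩, h3, trivial⟩
  · rw [← card_eq_cnt]; simp
  · intro a _
    exact x_le' hr s a _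
  · intro a x _ _ _
    refine x_coinc hr s' a l _ ?_
    intro f g hf hg hfg
    funext k
    by_cases hk : k = l
    · rw [hk, ← hf, ← hg]
    · exact hfg k hk
  · intro a x _ _ _
    exact P_le' hr q x _

theorem bad4 (s q s' : ℕ) (i j : Fin s × Fin q) (hij : i ≠ j) :
    cnt (fun z : A × (Fin s → B) × (Fin s' → B) × (Fin s → Fin q → A) =>
      Hom r z ∧ z.2.2.2 i.1 i.2 = z.2.2.2 j.1 j.2) ≤
      Fintype.card A * ((K * D) ^ s * ((K * D) ^ s' * (K * D) ^ (q * s - 1))) := by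
  classical
  refine le_trans (cnt_mono _ _ ?_) (layers_le (r := r) s q s' _ _ _ _ (fun _ : A => True) id
    (fun _ _ => True) (fun _ _ _ => True) (fun _ _ P => P i.1 i.2 = P j.1 j.2) ?_ ?_ ?_ ?_)
  · rintro z ⟨⟨h1, h2, h3⟩, h4⟩
    exact ⟨trivial, ⟨h1, trivial⟩, ⟨h2, trivial⟩, h3, h4⟩
  · rw [← card_eq_cnt]; simp
  · intro a _
    exact x_le' hr s a _
  · intro a x _ _ _
    exact x_le' hr s' a _
  · intro a x _ _ _
    refine P_coinc hr x i _ ?_
    intro f g hf hg hfg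
    funext k k'
    by_cases hk : (k, k') = i
    · have e1 : k = i.1 := by rw [← hk]
      have e2 : k' = i.2 := by rw [← hk]
      rw [e1, e2, hf, hg]; exact hfg j (Ne.symm hij)
    · exact hfg (k, k') hk

theorem bad5 (s q s' : ℕ) (i : Fin s × Fin q) :
    cnt (fun z : A × (Fin s → B) × (Fin s' → B) × (Fin s → Fin q → A) =>
      Hom r z ∧ z.1 = z.2.2.2 i.1 i.2) ≤
      Fintype.card A * ((K * D) ^ s * ((K * D) ^ s' * (K * D) ^ (q * s - 1))) := by
  classical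
  refine le_trans (cnt_mono _ _ ?_) (layers_le (r := r) s q s' _ _ _ _ (fun _ : A => True) id
    (fun _ _ => True) (fun _ _ _ => True) (fun a _ P => a = P i.1 i.2) ?_ ?_ ?_ ?_)
  · rintro z ⟨⟨h1, h2, h3⟩, h4⟩
    exact ⟨trivial, ⟨h1, trivial⟩, ⟨h2, trivial⟩, h3, h4⟩
  · rw [← card_eq_cnt]; simp
  · intro a _
    exact x_le' hr s a _
  · intro a x _ _ _
    exact x_le' hr s' a _
  · intro a x _ _ _
    refine P_coinc hr x i _ ?_
    intro f g hf hg hfg
    funext k k'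
    by_cases hk : (k, k') = i
    · have e1 : k = i.1 := by rw [← hk]
      have e2 : k' = i.2 := by rw [← hk]
      rw [e1, e2, ← hf, ← hg]
    · exact hfg (k, k') hk

/-- homomorphisms with a heavy tuple at the child `i` -/
theorem bad6 (s q s' L : ℕ) (i : Fin s) :
    cnt (fun z : A × (Fin s → B) × (Fin s' → B) × (Fin s → Fin q → A) =>
      Hom r z ∧ L ≤ codeg r (Fin.cons z.1 (z.2.2.2 i) : Fin (q + 1) → A)) ≤
      NH r q L * ((K * D) ^ (s - 1) * ((K * D) ^ s' * (K * D) ^ (q * (s - 1)))) := by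
  classical
  obtain ⟨s, rfl⟩ : ∃ s₀, s = s₀ + 1 := ⟨s - 1, by have := i.2; omega⟩
  rw [Nat.add_sub_cancel]
  refine le_trans (cnt_inj_le _ _
    (fun z => (((z.2.1 i, (Fin.cons z.1 (z.2.2.2 i) : Fin (q + 1) → A))),
      ((fun j : Fin s => z.2.1 (i.succAbove j)), (z.2.2.1,
        (fun j : Fin s => z.2.2.2 (i.succAbove j)))))) ?_ ?_)
    (layers_le (r := r) (A' := B × (Fin (q + 1) → A)) s q s' _ _ _ _
      (fun y => (∀ j, r (y.2 j) y.1) ∧ L ≤ codeg r y.2) (fun y => y.2 0)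
      (fun _ _ => True) (fun _ _ _ => True) (fun _ _ _ => True) ?_ ?_ ?_ ?_)
  · rintro z ⟨⟨h1, h2, h3⟩, h4⟩
    refine ⟨⟨?_, h4⟩, ⟨?_, trivial⟩, ⟨?_, trivial⟩, ?_, trivial⟩
    · intro j
      refine Fin.cases ?_ ?_ j
      · simpa using h1 i
      · intro a
        simpa using h3 i a
    · intro j
      simpa using h1 (i.succAbove j)
    · intro l
      simpa using h2 l
    · intro j a
      exact h3 (i.succAbove j) a
  · rintro ⟨c, x, w, P⟩ ⟨c', x', w', P'⟩ _ _ h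
    simp only [Prod.mk.injEq] at h
    obtain ⟨⟨h1, h2⟩, h3, h4, h5⟩ := h
    have hc : c = c' := by
      have := congrFun h2 0
      simpa using this
    have hP : P i = P' i := by
      funext a
      have := congrFun h2 a.succ
      simpa using this
    have hx : x = x' := by
      funext k
      rcases Fin.eq_self_or_eq_succAbove i k with hk | ⟨j, hj⟩
      · rw [hk]; exact h1
      · rw [hj]; exact congrFun h3 j
    have hPP : P = P' := by
      funext k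
      rcases Fin.eq_self_or_eq_succAbove i k with hk | ⟨j, hj⟩
      · rw [hk]; exact hP
      · rw [hj]; exact congrFun h5 j
    rw [hc, hx, h4, hPP]
  · unfold NH
    rw [card_eq_cnt]
  · intro a _
    exact x_le' hr s _ _
  · intro a x _ _ _
    exact x_le' hr s' _ _
  · intro a x _ _ _
    exact P_le' hr q x _

/-- the union bound -/
theorem hom_le (s q s' L : ℕ) (hs : 1 ≤ s) (hq : 1 ≤ q) :
    cnt (fun z : A × (Fin s → B) × (Fin s' → B) × (Fin s → Fin q → A) => Hom r z) ≤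
    cnt (fun z : A × (Fin s → B) × (Fin s' → B) × (Fin s → Fin q → A) =>
      Clean r L z.1 z.2.1 z.2.2.1 z.2.2.2) +
    (s * s + s' * s' + s * s' + s * q * (s * q) + s * q) *
      (Fintype.card A * (K * D) ^ (s * q + s + s' - 1)) +
    s * (NH r q L * (K * D) ^ ((s - 1) + s' + q * (s - 1))) := by
  classical
  set M := K * D with hM
  set N := Fintype.card A * M ^ (s * q + s + s' - 1) with hN
  have hsq : 1 ≤ s * q := Nat.mul_pos hs hq
  have b1 := cnt_exists_le (fun p : Fin s × Fin s =>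
    fun z : A × (Fin s → B) × (Fin s' → B) × (Fin s → Fin q → A) =>
      p.1 ≠ p.2 ∧ Hom r z ∧ z.2.1 p.1 = z.2.1 p.2) N (by
    rintro ⟨i, j⟩
    by_cases hij : i = j
    · refine le_trans (cnt_mono _ (fun _ => False) fun z hz => hz.1 hij) ?_
      rw [← card_eq_cnt]; simp
    · refine le_trans (cnt_mono _ _ fun z hz => hz.2) (le_trans (bad1 hr s q s' i j hij) ?_)
      rw [hN, ← hM, ← pow_add, ← pow_add]
      apply le_of_eq
      congr 2
      rw [mul_comm q s]; omega)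
  have b2 := cnt_exists_le (fun p : Fin s' × Fin s' =>
    fun z : A × (Fin s → B) × (Fin s' → B) × (Fin s → Fin q → A) =>
      p.1 ≠ p.2 ∧ Hom r z ∧ z.2.2.1 p.1 = z.2.2.1 p.2) N (by
    rintro ⟨i, j⟩
    by_cases hij : i = j
    · refine le_trans (cnt_mono _ (fun _ => False) fun z hz => hz.1 hij) ?_
      rw [← card_eq_cnt]; simp
    · refine le_trans (cnt_mono _ _ fun z hz => hz.2) (le_trans (bad2 hr s q s' i j hij) ?_)
      rw [hN, ← hM, ← pow_add, ← pow_add]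
      apply le_of_eq
      congr 2
      have := i.2
      rw [mul_comm q s]; omega)
  have b3 := cnt_exists_le (fun p : Fin s × Fin s' =>
    fun z : A × (Fin s → B) × (Fin s' → B) × (Fin s → Fin q → A) =>
      Hom r z ∧ z.2.1 p.1 = z.2.2.1 p.2) N (by
    rintro ⟨i, l⟩
    refine le_trans (bad3 hr s q s' i l) ?_
    rw [hN, ← hM, ← pow_add, ← pow_add]
    apply le_of_eq
    congr 2
    have := l.2
    rw [mul_comm q s]; omega)
  have b4 := cnt_exists_le (fun p : (Fin s × Fin q) × (Fin s × Fin q) =>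
    fun z : A × (Fin s → B) × (Fin s' → B) × (Fin s → Fin q → A) =>
      p.1 ≠ p.2 ∧ Hom r z ∧ z.2.2.2 p.1.1 p.1.2 = z.2.2.2 p.2.1 p.2.2) N (by
    rintro ⟨i, j⟩
    by_cases hij : i = j
    · refine le_trans (cnt_mono _ (fun _ => False) fun z hz => hz.1 hij) ?_
      rw [← card_eq_cnt]; simp
    · refine le_trans (cnt_mono _ _ fun z hz => hz.2) (le_trans (bad4 hr s q s' i j hij) ?_)
      rw [hN, ← hM, ← pow_add, ← pow_add]
      apply le_of_eq
      congr 2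
      rw [mul_comm q s]; omega)
  have b5 := cnt_exists_le (fun p : Fin s × Fin q =>
    fun z : A × (Fin s → B) × (Fin s' → B) × (Fin s → Fin q → A) =>
      Hom r z ∧ z.1 = z.2.2.2 p.1 p.2) N (by
    intro i
    refine le_trans (bad5 hr s q s' i) ?_
    rw [hN, ← hM, ← pow_add, ← pow_add]
    apply le_of_eq
    congr 2
    rw [mul_comm q s]; omega)
  have b6 := cnt_exists_le (fun i : Fin s =>
    fun z : A × (Fin s → B) × (Fin s' → B) × (Fin s → Fin q → A) =>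
      Hom r z ∧ L ≤ codeg r (Fin.cons z.1 (z.2.2.2 i) : Fin (q + 1) → A))
      (NH r q L * M ^ ((s - 1) + s' + q * (s - 1))) (by
    intro i
    refine le_trans (bad6 hr s q s' L i) ?_
    rw [← hM, ← pow_add, ← pow_add]
    apply le_of_eq
    congr 2
    omega)
  simp only [Fintype.card_prod, Fintype.card_fin] at b1 b2 b3 b4 b5 b6
  have hcov : ∀ z : A × (Fin s → B) × (Fin s' → B) × (Fin s → Fin q → A), Hom r z →
      (Clean r L z.1 z.2.1 z.2.2.1 z.2.2.2 ∨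
      ((∃ p : Fin s × Fin s, p.1 ≠ p.2 ∧ Hom r z ∧ z.2.1 p.1 = z.2.1 p.2) ∨
      ((∃ p : Fin s' × Fin s', p.1 ≠ p.2 ∧ Hom r z ∧ z.2.2.1 p.1 = z.2.2.1 p.2) ∨
      ((∃ p : Fin s × Fin s', Hom r z ∧ z.2.1 p.1 = z.2.2.1 p.2) ∨
      ((∃ p : (Fin s × Fin q) × (Fin s × Fin q),
        p.1 ≠ p.2 ∧ Hom r z ∧ z.2.2.2 p.1.1 p.1.2 = z.2.2.2 p.2.1 p.2.2) ∨
      ((∃ p : Fin s × Fin q, Hom r z ∧ z.1 = z.2.2.2 p.1 p.2) ∨
      (∃ i : Fin s, Hom r z ∧
        L ≤ codeg r (Fin.cons z.1 (z.2.2.2 i) : Fin (q + 1) → A)))))))) := by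
    intro z hz
    by_contra hcon
    push Not at hcon
    obtain ⟨hc, h1, h2, h3, h4, h5, h6⟩ := hcon
    apply hc
    refine ⟨hz.1, hz.2.1, hz.2.2, fun i => h6 i hz, ?_, ?_, ?_, ?_, ?_⟩
    · intro i j hij
      by_contra hne
      exact h1 (i, j) hne hz hij
    · intro i j hij
      by_contra hne
      exact h2 (i, j) hne hz hij
    · intro i l
      exact h3 (i, l) hz
    · intro i j hij
      by_contra hne
      exact h4 (i, j) hne hz hij
    · intro i a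
      exact h5 (i, a) hz
  have t0 := cnt_mono (fun z : A × (Fin s → B) × (Fin s' → B) × (Fin s → Fin q → A) => Hom r z)
    _ hcov
  have t1 := cnt_or (fun z : A × (Fin s → B) × (Fin s' → B) × (Fin s → Fin q → A) =>
    Clean r L z.1 z.2.1 z.2.2.1 z.2.2.2) (fun z =>
      ((∃ p : Fin s × Fin s, p.1 ≠ p.2 ∧ Hom r z ∧ z.2.1 p.1 = z.2.1 p.2) ∨
      ((∃ p : Fin s' × Fin s', p.1 ≠ p.2 ∧ Hom r z ∧ z.2.2.1 p.1 = z.2.2.1 p.2) ∨
      ((∃ p : Fin s × Fin s', Hom r z ∧ z.2.1 p.1 = z.2.2.1 p.2) ∨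
      ((∃ p : (Fin s × Fin q) × (Fin s × Fin q),
        p.1 ≠ p.2 ∧ Hom r z ∧ z.2.2.2 p.1.1 p.1.2 = z.2.2.2 p.2.1 p.2.2) ∨
      ((∃ p : Fin s × Fin q, Hom r z ∧ z.1 = z.2.2.2 p.1 p.2) ∨
      (∃ i : Fin s, Hom r z ∧
        L ≤ codeg r (Fin.cons z.1 (z.2.2.2 i) : Fin (q + 1) → A))))))))
  have t2 := cnt_or (fun z : A × (Fin s → B) × (Fin s' → B) × (Fin s → Fin q → A) =>
    (∃ p : Fin s × Fin s, p.1 ≠ p.2 ∧ Hom r z ∧ z.2.1 p.1 = z.2.1 p.2)) (fun z =>
      ((∃ p : Fin s' × Fin s', p.1 ≠ p.2 ∧ Hom r z ∧ z.2.2.1 p.1 = z.2.2.1 p.2) ∨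
      ((∃ p : Fin s × Fin s', Hom r z ∧ z.2.1 p.1 = z.2.2.1 p.2) ∨
      ((∃ p : (Fin s × Fin q) × (Fin s × Fin q),
        p.1 ≠ p.2 ∧ Hom r z ∧ z.2.2.2 p.1.1 p.1.2 = z.2.2.2 p.2.1 p.2.2) ∨
      ((∃ p : Fin s × Fin q, Hom r z ∧ z.1 = z.2.2.2 p.1 p.2) ∨
      (∃ i : Fin s, Hom r z ∧
        L ≤ codeg r (Fin.cons z.1 (z.2.2.2 i) : Fin (q + 1) → A)))))))
  have t3 := cnt_or (fun z : A × (Fin s → B) × (Fin s' → B) × (Fin s → Fin q → A) =>
    (∃ p : Fin s' × Fin s', p.1 ≠ p.2 ∧ Hom r z ∧ z.2.2.1 p.1 = z.2.2.1 p.2)) (fun z =>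
      ((∃ p : Fin s × Fin s', Hom r z ∧ z.2.1 p.1 = z.2.2.1 p.2) ∨
      ((∃ p : (Fin s × Fin q) × (Fin s × Fin q),
        p.1 ≠ p.2 ∧ Hom r z ∧ z.2.2.2 p.1.1 p.1.2 = z.2.2.2 p.2.1 p.2.2) ∨
      ((∃ p : Fin s × Fin q, Hom r z ∧ z.1 = z.2.2.2 p.1 p.2) ∨
      (∃ i : Fin s, Hom r z ∧
        L ≤ codeg r (Fin.cons z.1 (z.2.2.2 i) : Fin (q + 1) → A))))))
  have t4 := cnt_or (fun z : A × (Fin s → B) × (Fin s' → B) × (Fin s → Fin q → A) =>
    (∃ p : Fin s × Fin s', Hom r z ∧ z.2.1 p.1 = z.2.2.1 p.2)) (fun z =>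
      ((∃ p : (Fin s × Fin q) × (Fin s × Fin q),
        p.1 ≠ p.2 ∧ Hom r z ∧ z.2.2.2 p.1.1 p.1.2 = z.2.2.2 p.2.1 p.2.2) ∨
      ((∃ p : Fin s × Fin q, Hom r z ∧ z.1 = z.2.2.2 p.1 p.2) ∨
      (∃ i : Fin s, Hom r z ∧
        L ≤ codeg r (Fin.cons z.1 (z.2.2.2 i) : Fin (q + 1) → A)))))
  have t5 := cnt_or (fun z : A × (Fin s → B) × (Fin s' → B) × (Fin s → Fin q → A) =>
    (∃ p : (Fin s × Fin q) × (Fin s × Fin q),
        p.1 ≠ p.2 ∧ Hom r z ∧ z.2.2.2 p.1.1 p.1.2 = z.2.2.2 p.2.1 p.2.2)) (fun z =>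
      ((∃ p : Fin s × Fin q, Hom r z ∧ z.1 = z.2.2.2 p.1 p.2) ∨
      (∃ i : Fin s, Hom r z ∧
        L ≤ codeg r (Fin.cons z.1 (z.2.2.2 i) : Fin (q + 1) → A))))
  have t6 := cnt_or (fun z : A × (Fin s → B) × (Fin s' → B) × (Fin s → Fin q → A) =>
    (∃ p : Fin s × Fin q, Hom r z ∧ z.1 = z.2.2.2 p.1 p.2)) (fun z =>
      (∃ i : Fin s, Hom r z ∧
        L ≤ codeg r (Fin.cons z.1 (z.2.2.2 i) : Fin (q + 1) → A)))
  have hsum : (s * s + s' * s' + s * s' + s * q * (s * q) + s * q) * N =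
    s * s * N + s' * s' * N + s * s' * N + s * q * (s * q) * N + s * q * N := by ring
  rw [hsum]
  omega

end

/-- many clean embeddings -/
theorem cntMain : S_CNT := by
  intro s q s' K hs hq hK
  have hKR : (0 : ℝ) < K := by exact_mod_cast hK
  have hsR : (0 : ℝ) < s := by exact_mod_cast hs
  set e : ℕ := (s - 1) + s' + q * (s - 1) with he
  set c₁ : ℕ := s * s + s' * s' + s * s' + s * q * (s * q) + s * q with hc₁
  refine ⟨1 / (4 * s * (K : ℝ) ^ (e + 1)), by positivity,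
    4 * c₁ * (K : ℝ) ^ (s * q + s + s' - 1) + 1, ?_⟩
  intro A B _ _ _ r D L hr hD hNH
  have hKn : (0 : ℝ) ≤ 4 * c₁ * (K : ℝ) ^ (s * q + s + s' - 1) := by positivity
  have hD1 : (1 : ℝ) ≤ D := by linarith
  have hDn : 0 < D := by exact_mod_cast (lt_of_lt_of_le one_pos hD1)
  have h1 := Hom_ge hr s q s'
  have h2 := hom_le hr s q s' L hs hq
  have h3 := card_B_le hr hDn
  rw [card_eq_cnt]
  have h4 := le_trans h1 h2
  have h5 : ((Fintype.card A * (D ^ s * (D ^ s' * D ^ (q * s))) : ℕ) : ℝ) ≤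
    ((cnt (fun z : A × (Fin s → B) × (Fin s' → B) × (Fin s → Fin q → A) =>
      Clean r L z.1 z.2.1 z.2.2.1 z.2.2.2) +
    (s * s + s' * s' + s * s' + s * q * (s * q) + s * q) *
      (Fintype.card A * (K * D) ^ (s * q + s + s' - 1)) +
    s * (NH r q L * (K * D) ^ ((s - 1) + s' + q * (s - 1))) : ℕ) : ℝ) := by exact_mod_cast h4
  rw [← hc₁, ← he] at h5
  push_cast at h5
  have h3R : (Fintype.card B : ℝ) ≤ K * Fintype.card A := by exact_mod_cast h3
  have e1 : (D : ℝ) ^ s * ((D : ℝ) ^ s' * (D : ℝ) ^ (q * s)) = (D : ℝ) ^ (s * q + s + s') := by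
    rw [← pow_add, ← pow_add]
    congr 1
    rw [mul_comm q s]; omega
  rw [e1] at h5
  set X : ℝ := (Fintype.card A : ℝ) * (D : ℝ) ^ (s * q + s + s') with hX
  have hX0 : 0 ≤ X := by positivity
  -- first class of bad homomorphisms
  have h6 : (c₁ : ℝ) * ((Fintype.card A : ℝ) * ((K : ℝ) * D) ^ (s * q + s + s' - 1)) ≤ X / 4 := by
    have e2 : (D : ℝ) ^ (s * q + s + s') = (D : ℝ) ^ (s * q + s + s' - 1) * D := by
      rw [← pow_succ]; congr 1; omega
    rw [hX, e2, mul_pow]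
    have : (c₁ : ℝ) * (K : ℝ) ^ (s * q + s + s' - 1) ≤ D / 4 := by linarith
    have hp : (0 : ℝ) ≤ (Fintype.card A : ℝ) * (D : ℝ) ^ (s * q + s + s' - 1) := by positivity
    have := mul_le_mul_of_nonneg_right this hp
    linarith [this]
  have h7 : (s : ℝ) * ((NH r q L : ℝ) * ((K : ℝ) * D) ^ e) ≤ X / 4 := by
    have e3 : (D : ℝ) ^ (s * q + s + s') = (D : ℝ) ^ (q + 1) * (D : ℝ) ^ e := by
      rw [← pow_add]; congr 1
      rw [he]
      obtain ⟨s₀, rfl⟩ : ∃ s₀, s = s₀ + 1 := ⟨s - 1, by omega⟩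
      simp only [Nat.add_sub_cancel]
      ring
    have h8 : (NH r q L : ℝ) ≤
        1 / (4 * s * (K : ℝ) ^ (e + 1)) * (K * Fintype.card A) * (D : ℝ) ^ (q + 1) := by
      refine le_trans hNH.le ?_
      gcongr
    have hp : (0 : ℝ) ≤ (K : ℝ) ^ e * (D : ℝ) ^ e * s := by positivity
    have h9 := mul_le_mul_of_nonneg_right h8 hp
    calc (s : ℝ) * ((NH r q L : ℝ) * ((K : ℝ) * D) ^ e)
        = (NH r q L : ℝ) * ((K : ℝ) ^ e * (D : ℝ) ^ e * s) := by rw [mul_pow]; ring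
      _ ≤ _ := h9
      _ = X / 4 := by
        rw [hX, e3, pow_succ (K : ℝ) e]
        field_simp
  linarith

end Pool.Agent.W704.BC
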